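import Pool.Agent.W759.FD.Defs

/-!
# The process is stationary (part FD-P8a)
-/

namespace Pool.Agent.W753.FD

open MeasureTheory ProbabilityTheory Set Filter
open Pool.Agent.W759.FD

lemma measurable_X : Measurable X := by
  unfold X
  refine measurable_pi_iff.mpr fun a => measurable_pi_iff.mpr fun q => ?_
  exact (measurable_pi_apply q.2).comp (measurable_pi_apply (q.1, a - (q.2 : ℤ)))

lemma measurable_shift : Measurable (fun (x : ℤ → S0) (i : ℤ) => x (i + 1)) :=
  measurable_pi_iff.mpr fun i => measurable_pi_apply (i + 1)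

theorem t8a : P8a := by
  intro h6
  have hi : ∀ k : K, IsProbabilityMeasure (house (k.1.1 + 1)) := fun k => h6 _ (Nat.succ_pos _)
  let th : (K → ℕ → Bool) → (K → ℕ → Bool) := fun ω k => ω (k.1, k.2 + 1)
  have hth : Measurable th := measurable_pi_iff.mpr fun k => measurable_pi_apply _
  have hinj : Function.Injective (fun k : K => ((k.1, k.2 + 1) : K)) := by
    rintro ⟨a, b⟩ ⟨c, d⟩ h
    simp only [Prod.mk.injEq, add_left_inj] at h
    rw [h.1, h.2]
  have h1 : PW.map th = PW := by
    exact MeasureTheory.Measure.map_infinitePi_infinitePi_of_inj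
      (P := fun k : K => house (k.1.1 + 1)) hinj
  have h2 : (fun (x : ℤ → S0) (i : ℤ) => x (i + 1)) ∘ X = X ∘ th := by
    funext ω a q
    have e : a + 1 - (q.2 : ℤ) = a - (q.2 : ℤ) + 1 := by ring
    show ω (q.1, a + 1 - (q.2 : ℤ)) q.2 = ω (q.1, a - (q.2 : ℤ) + 1) q.2
    rw [e]
  show (PW.map X).map (fun (x : ℤ → S0) (i : ℤ) => x (i + 1)) = PW.map X
  rw [Measure.map_map measurable_shift measurable_X, h2, ← Measure.map_map measurable_X hth, h1]

end Pool.Agent.W753.FD
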